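import Pool.Agent.P.MP_970871_ag.Main

set_option autoImplicit false

open Pool.Agent.P.MP_970871_ag

/-- Two regular nets of quadrics with the same discriminant quartic whose threefolds of lines
are not isomorphic. -/
theorem Pool.Agent.Results.MP_970871_ag.NotDetermined.result :
    ∃ L L' : Net, IsRegularNet L ∧ IsRegularNet L' ∧ disc L = disc L' ∧
      ¬∃ φ : lines L ≃ lines L', IsMorphism φ ∧ IsMorphism φ.symm :=
  Pool.Agent.P.MP_970871_ag.main
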