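import Pool.Agent.P.MP_970871_ag.T5

set_option autoImplicit false

open Pool.Agent.P.MP_970871_ag Matrix

/-- The threefold of lines determines the net: for all regular nets, a map from the first
threefold to projective five-space is an isomorphism onto the second threefold exactly when it
is induced by a projective equivalence of the nets. -/
theorem Pool.Agent.Results.MP_970871_ag.Torelli.result (L L' : Net) (h : IsRegularNet L)
    (h' : IsRegularNet L') (f : lines L → Projectivization ℂ (Fin 6 → ℂ)) :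
    (∃ φ : lines L ≃ lines L', IsMorphism φ ∧ IsMorphism φ.symm ∧ ∀ z, (φ z).1 = f z) ↔
      ∃ (g : Matrix (Fin 4) (Fin 4) ℂ) (A : Matrix (Fin 3) (Fin 3) ℂ), g.det ≠ 0 ∧ A.det ≠ 0 ∧
        (∀ k, L k = ∑ j, A k j • (gᵀ * L' j * g)) ∧
        ∀ (z : lines L) (u v : Fin 4 → ℂ), z.1.rep = plucker u v →
          ∃ t : ℂ, (f z).rep = t • plucker (g *ᵥ u) (g *ᵥ v) := by
  constructor
  · rintro ⟨φ, h1, h2, hf⟩
    obtain ⟨g, A, hg, hA, e, hI⟩ := torelli h h' φ h1 h2
    exact ⟨g, A, hg, hA, e, fun z u v ez => by simpa only [ez, Lam_pl, hf] using hI z⟩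
  · rintro ⟨g, A, hg, hA, e, hf⟩
    obtain ⟨φ, hI⟩ := exists_equiv h.1 h'.1 hg hA e
    refine ⟨φ, hI.morph, (hI.symm (Lam_inv hg)).morph, fun z => ?_⟩
    obtain ⟨u, v, ez, -⟩ := z.2
    obtain ⟨t, ht⟩ := hf z u v ez
    obtain ⟨s, hs⟩ := hI z
    have h0 : t ≠ 0 := by
      rintro rfl
      exact (f z).rep_nonzero (by rw [ht, zero_smul])
    rw [← (φ z).1.mk_rep, ← (f z).mk_rep, Projectivization.mk_eq_mk_iff']
    exact ⟨s / t, by rw [ht, hs, ez, Lam_pl, smul_smul, div_mul_cancel₀ _ h0]⟩
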